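import Pool.Agent.Lib.MP_7e0f1f_an.Young

set_option autoImplicit false

open MeasureTheory Set Filter Topology

namespace Pool.Agent.SepBump

/-- Tonelli on `Fin 2 → ℝ` -/
theorem lint2 (F : ℝ × ℝ → ENNReal) (hF : Measurable F) :
    ∫⁻ x : Fin 2 → ℝ, F (x 0, x 1) = ∫⁻ a, ∫⁻ b, F (a, b) := by
  have h := (volume_preserving_finTwoArrow ℝ).lintegral_comp hF
  have h2 : ∫⁻ x : Fin 2 → ℝ, F (MeasurableEquiv.finTwoArrow x) =
      ∫⁻ x : Fin 2 → ℝ, F (x 0, x 1) := rfl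
  rw [← h2, h, Measure.volume_eq_prod, lintegral_prod _ hF.aemeasurable]

/-- the region `0 < x₀ < 1`, `0 < x₁ < x₀ ^ 2` -/
def Reg : Set (Fin 2 → ℝ) := {x | 0 < x 0 ∧ x 0 < 1 ∧ 0 < x 1 ∧ x 1 < (x 0) ^ 2}

theorem Reg_meas : MeasurableSet Reg := by
  have h0 : Measurable (fun x : Fin 2 → ℝ => x 0) := measurable_pi_apply 0
  have h1 : Measurable (fun x : Fin 2 → ℝ => x 1) := measurable_pi_apply 1
  have a1 : MeasurableSet {x : Fin 2 → ℝ | 0 < x 0} := measurableSet_lt measurable_const h0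
  have a2 : MeasurableSet {x : Fin 2 → ℝ | x 0 < 1} := measurableSet_lt h0 measurable_const
  have a3 : MeasurableSet {x : Fin 2 → ℝ | 0 < x 1} := measurableSet_lt measurable_const h1
  have a4 : MeasurableSet {x : Fin 2 → ℝ | x 1 < (x 0) ^ 2} :=
    measurableSet_lt h1 (h0.pow_const 2)
  exact a1.inter (a2.inter (a3.inter a4))

/-- part of the region with `x₀ ∈ J` -/
def RegJ (J : Set ℝ) : Set (Fin 2 → ℝ) := {x | x ∈ Reg ∧ x 0 ∈ J}

theorem RegJ_meas {J : Set ℝ} (hJ : MeasurableSet J) : MeasurableSet (RegJ J) := by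
  have h0 : Measurable (fun x : Fin 2 → ℝ => x 0) := measurable_pi_apply 0
  exact Reg_meas.inter (h0 hJ)

/-- the basic integral over the region -/
theorem lint_RegJ (J : Set ℝ) (hJ : MeasurableSet J) (hJs : J ⊆ Ioo 0 1)
    (ψ : ℝ → ENNReal) (hψ : Measurable ψ) :
    ∫⁻ x : Fin 2 → ℝ, (RegJ J).indicator
      (fun x => ψ (x 0) * ENNReal.ofReal (((x 0) ^ 2)⁻¹)) x = ∫⁻ s in J, ψ s := by
  set F : ℝ × ℝ → ENNReal := fun q =>
    ({q : ℝ × ℝ | q.1 ∈ J ∧ 0 < q.2 ∧ q.2 < q.1 ^ 2}).indicator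
      (fun q => ψ q.1 * ENNReal.ofReal ((q.1 ^ 2)⁻¹)) q with hF
  have hset : MeasurableSet {q : ℝ × ℝ | q.1 ∈ J ∧ 0 < q.2 ∧ q.2 < q.1 ^ 2} := by
    have a1 : MeasurableSet {q : ℝ × ℝ | q.1 ∈ J} := measurable_fst hJ
    have a2 : MeasurableSet {q : ℝ × ℝ | 0 < q.2} := measurableSet_lt measurable_const measurable_snd
    have a3 : MeasurableSet {q : ℝ × ℝ | q.2 < q.1 ^ 2} :=
      measurableSet_lt measurable_snd (measurable_fst.pow_const 2)
    exact a1.inter (a2.inter a3)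
  have hFm : Measurable F := by
    apply Measurable.indicator _ hset
    exact (hψ.comp measurable_fst).mul
      ((measurable_fst.pow_const 2).inv.ennreal_ofReal)
  have h1 : ∀ x : Fin 2 → ℝ, (RegJ J).indicator
      (fun x => ψ (x 0) * ENNReal.ofReal (((x 0) ^ 2)⁻¹)) x = F (x 0, x 1) := by
    intro x
    by_cases hx : x 0 ∈ J ∧ 0 < x 1 ∧ x 1 < (x 0) ^ 2
    · have hx' : x ∈ RegJ J := by
        have := hJs hx.1
        exact ⟨⟨this.1, this.2, hx.2.1, hx.2.2⟩, hx.1⟩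
      rw [indicator_of_mem hx', hF]
      simp only
      rw [indicator_of_mem (by exact hx)]
    · have hx' : x ∉ RegJ J := by
        intro h
        exact hx ⟨h.2, h.1.2.2.1, h.1.2.2.2⟩
      rw [indicator_of_notMem hx', hF]
      simp only
      rw [indicator_of_notMem (by exact hx)]
  rw [lintegral_congr h1, lint2 F hFm, ← lintegral_indicator hJ]
  apply lintegral_congr
  intro s
  by_cases hs : s ∈ J
  · rw [indicator_of_mem hs]
    have hs0 := hJs hs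
    have hpos : 0 < s ^ 2 := by have := hs0.1; positivity
    have h2 : ∀ t : ℝ, F (s, t) = (Ioo 0 (s ^ 2)).indicator
        (fun _ => ψ s * ENNReal.ofReal ((s ^ 2)⁻¹)) t := by
      intro t
      rw [hF]
      simp only
      by_cases ht : t ∈ Ioo 0 (s ^ 2)
      · rw [indicator_of_mem ht, indicator_of_mem (by exact ⟨hs, ht.1, ht.2⟩)]
      · rw [indicator_of_notMem ht, indicator_of_notMem (by
          intro h
          exact ht ⟨h.2.1, h.2.2⟩)]
    rw [lintegral_congr h2, lintegral_indicator measurableSet_Ioo, lintegral_const,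
      Measure.restrict_apply_univ, Real.volume_Ioo, sub_zero, mul_assoc,
      ← ENNReal.ofReal_mul (inv_nonneg.mpr hpos.le), inv_mul_cancel₀ hpos.ne',
      ENNReal.ofReal_one, mul_one]
  · rw [indicator_of_notMem hs]
    have h2 : ∀ t : ℝ, F (s, t) = 0 := by
      intro t
      rw [hF]
      simp only
      rw [indicator_of_notMem (by
        intro h
        exact hs h.1)]
    rw [lintegral_congr h2, lintegral_zero]

/-- cubes -/
def IsCube (Q : Set (Fin 2 → ℝ)) (a : Fin 2 → ℝ) (ℓ : ℝ) : Prop :=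
  Q = Set.univ.pi (fun i => Set.Ico (a i) (a i + ℓ))

theorem vol_cube {Q : Set (Fin 2 → ℝ)} {a : Fin 2 → ℝ} {ℓ : ℝ} (hℓ : 0 < ℓ)
    (h : IsCube Q a ℓ) : volume Q = ENNReal.ofReal (ℓ ^ 2) := by
  rw [h, Real.volume_pi_Ico]
  simp only [add_sub_cancel_left, Fin.prod_univ_two]
  rw [← ENNReal.ofReal_mul hℓ.le, sq]

theorem meas_cube {Q : Set (Fin 2 → ℝ)} {a : Fin 2 → ℝ} {ℓ : ℝ}
    (h : IsCube Q a ℓ) : MeasurableSet Q := by
  rw [h]
  exact MeasurableSet.univ_pi (fun i => measurableSet_Ico)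

/-- the trace of a cube on the first coordinate -/
def JQ (a : Fin 2 → ℝ) (ℓ : ℝ) : Set ℝ := Ioo 0 1 ∩ Ico (a 0) (a 0 + ℓ)

theorem JQ_meas (a : Fin 2 → ℝ) (ℓ : ℝ) : MeasurableSet (JQ a ℓ) :=
  measurableSet_Ioo.inter measurableSet_Ico

/-- upper bound for integrals over cubes of functions carried by the region -/
theorem lint_cube_le {Q : Set (Fin 2 → ℝ)} {a : Fin 2 → ℝ} {ℓ : ℝ}
    (h : IsCube Q a ℓ) (g : (Fin 2 → ℝ) → ENNReal) (ψ : ℝ → ENNReal) (hψ : Measurable ψ)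
    (hg : ∀ x ∈ Reg, x 0 ∈ JQ a ℓ → g x ≤ ψ (x 0) * ENNReal.ofReal (((x 0) ^ 2)⁻¹))
    (hg0 : ∀ x, x ∉ Reg → g x = 0) :
    ∫⁻ x in Q, g x ≤ ∫⁻ s in JQ a ℓ, ψ s := by
  rw [← lint_RegJ (JQ a ℓ) (JQ_meas a ℓ) inter_subset_left ψ hψ,
    ← lintegral_indicator (meas_cube h)]
  apply lintegral_mono
  intro x
  by_cases hx : x ∈ Q
  · rw [indicator_of_mem hx]
    by_cases hr : x ∈ Reg
    · have hx0 : x 0 ∈ Ico (a 0) (a 0 + ℓ) := by
        rw [h] at hx
        exact hx 0 (mem_univ _)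
      have hJ : x 0 ∈ JQ a ℓ := ⟨⟨hr.1, hr.2.1⟩, hx0⟩
      rw [indicator_of_mem (show x ∈ RegJ (JQ a ℓ) from ⟨hr, hJ⟩)]
      exact hg x hr hJ
    · rw [hg0 x hr]
      exact zero_le
  · rw [indicator_of_notMem hx]
    exact zero_le

theorem vol_JQ_le (a : Fin 2 → ℝ) {ℓ : ℝ} :
    volume (JQ a ℓ) ≤ ENNReal.ofReal (min ℓ 1) := by
  rcases le_total ℓ 1 with h | h
  · rw [min_eq_left h]
    calc volume (JQ a ℓ) ≤ volume (Ico (a 0) (a 0 + ℓ)) := measure_mono inter_subset_right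
      _ = ENNReal.ofReal ℓ := by rw [Real.volume_Ico, add_sub_cancel_left]
  · rw [min_eq_right h]
    calc volume (JQ a ℓ) ≤ volume (Ioo (0:ℝ) 1) := measure_mono inter_subset_left
      _ = ENNReal.ofReal 1 := by rw [Real.volume_Ioo, sub_zero]

/-- abstract estimate combining the three factors -/
theorem three_factors {V I T : ENNReal} {ℓ M lam K : ℝ} (hℓ : 0 < ℓ) (hM : 0 ≤ M)
    (_hlam : 0 ≤ lam) (hV : V = ENNReal.ofReal (ℓ ^ 2)) (hI : I ≤ ENNReal.ofReal M)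
    (hT : T ≤ ENNReal.ofReal lam) (hK : Real.sqrt M * lam ≤ K) :
    V ^ (1 / 2 : ℝ) * (I / V) ^ (1 / 2 : ℝ) * T ≤ ENNReal.ofReal K := by
  have h2 : 0 < ℓ ^ 2 := by positivity
  have e1 : V ^ (1 / 2 : ℝ) = ENNReal.ofReal ℓ := by
    rw [hV, ENNReal.ofReal_rpow_of_pos h2, ← Real.sqrt_eq_rpow, Real.sqrt_sq hℓ.le]
  have e2 : (I / V) ^ (1 / 2 : ℝ) ≤ ENNReal.ofReal (Real.sqrt M / ℓ) := by
    calc (I / V) ^ (1 / 2 : ℝ) ≤ (ENNReal.ofReal M / V) ^ (1 / 2 : ℝ) := by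
          apply ENNReal.rpow_le_rpow _ (by norm_num)
          exact ENNReal.div_le_div_right hI V
      _ = ENNReal.ofReal (Real.sqrt M / ℓ) := by
          rw [hV, ← ENNReal.ofReal_div_of_pos h2,
            ENNReal.ofReal_rpow_of_nonneg (by positivity) (by norm_num),
            ← Real.sqrt_eq_rpow, Real.sqrt_div' _ h2.le, Real.sqrt_sq hℓ.le]
  calc V ^ (1 / 2 : ℝ) * (I / V) ^ (1 / 2 : ℝ) * T
      ≤ ENNReal.ofReal ℓ * ENNReal.ofReal (Real.sqrt M / ℓ) * ENNReal.ofReal lam := by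
        rw [e1]
        gcongr
    _ = ENNReal.ofReal (Real.sqrt M * lam) := by
        rw [← ENNReal.ofReal_mul hℓ.le, ← ENNReal.ofReal_mul (by positivity)]
        congr 1
        field_simp
    _ ≤ ENNReal.ofReal K := ENNReal.ofReal_le_ofReal hK

end Pool.Agent.SepBump
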