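import Pool.Agent.Lib.MP_7e0f1f_an.Weights

set_option autoImplicit false

open MeasureTheory Set Filter Topology

namespace Pool.Agent.SepBump

theorem half_rpow_sq {y : ℝ} (hy : 0 ≤ y) : (y ^ (1 / 2 : ℝ)) ^ 2 = y := by
  rw [← Real.sqrt_eq_rpow, Real.sq_sqrt hy]

/-- the `u` mass of a cube -/
theorem u_cube_le {Q : Set (Fin 2 → ℝ)} {a : Fin 2 → ℝ} {ℓ : ℝ} (h : IsCube Q a ℓ) :
    ∫⁻ x in Q, ENNReal.ofReal (u x) ≤ ENNReal.ofReal (min ℓ 1) := by
  refine le_trans (lint_cube_le h _ (fun _ => 1) measurable_const ?_ ?_) ?_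
  · intro x hx _
    rw [u_of_mem hx, one_mul]
  · intro x hx
    rw [u_of_notMem hx, ENNReal.ofReal_zero]
  · rw [setLIntegral_one]
    exact vol_JQ_le a

/-- first condition: bump on `σ` -/
theorem cond1_aux {Q : Set (Fin 2 → ℝ)} {a : Fin 2 → ℝ} {ℓ : ℝ} (hℓ : 0 < ℓ)
    (h : IsCube Q a ℓ) :
    ∫⁻ x in Q, ENNReal.ofReal (A (sg x ^ (1 / 2 : ℝ) / (6 / Real.sqrt (min ℓ 1)))) ≤
      volume Q := by
  set m := min ℓ 1 with hm
  have hm0 : 0 < m := lt_min hℓ one_pos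
  have hm1 : m ≤ 1 := min_le_right _ _
  have hmℓ : m ≤ ℓ := min_le_left _ _
  have hsm : 0 < Real.sqrt m := Real.sqrt_pos.mpr hm0
  have hsm2 : Real.sqrt m ^ 2 = m := Real.sq_sqrt hm0.le
  refine le_trans (lint_cube_le h _ (fun _ => ENNReal.ofReal (m / 12)) measurable_const ?_ ?_) ?_
  · intro x hx _
    rw [← ENNReal.ofReal_mul (by positivity)]
    apply ENNReal.ofReal_le_ofReal
    have hs := hx.1
    have hs1 := hx.2.1.le
    set s := x 0 with hsdef
    have hc := cc_pos hs hs1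
    have hc1 := cc_le_one hs hs1
    have hsq : 0 < (s ^ 2)⁻¹ := by positivity
    rw [sg_of_mem hx]
    set τ := (cc s * (s ^ 2)⁻¹) ^ (1 / 2 : ℝ) / (6 / Real.sqrt m) with hτ
    have hτ0 : 0 ≤ τ := by positivity
    have hτ2 : τ ^ 2 = cc s * (s ^ 2)⁻¹ * m / 36 := by
      rw [hτ, div_pow, half_rpow_sq (by positivity), div_pow, hsm2]
      field_simp
      norm_num
    have hτs : τ ≤ 1 / s := by
      apply abs_le_of_sq_le_sq' _ (by positivity) |>.2
      rw [hτ2]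
      have e : (1 / s) ^ 2 = (s ^ 2)⁻¹ := by
        rw [one_div, inv_pow]
      rw [e]
      have e1 : cc s * m ≤ 1 := mul_le_one₀ hc1 hm0.le hm1
      have e2 : cc s * (s ^ 2)⁻¹ * m / 36 = (cc s * m) * (s ^ 2)⁻¹ / 36 := by ring
      rw [e2]
      have e3 : (cc s * m) * (s ^ 2)⁻¹ ≤ 1 * (s ^ 2)⁻¹ := mul_le_mul_of_nonneg_right e1 hsq.le
      linarith
    refine le_trans (A_bound hs hs1 hτ0 hτs) ?_
    rw [hτ2]
    have e : cc s * (s ^ 2)⁻¹ * m / 36 * (3 * w s ^ (3 / 2 : ℝ)) =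
        (cc s * w s ^ (3 / 2 : ℝ)) * (m / 12 * (s ^ 2)⁻¹) := by ring
    rw [e, cc_mul hs hs1, one_mul]
  · intro x hx
    rw [sg_of_notMem hx, Real.zero_rpow (by norm_num), zero_div, A_zero, ENNReal.ofReal_zero]
  · rw [setLIntegral_const, vol_cube hℓ h]
    calc ENNReal.ofReal (m / 12) * volume (JQ a ℓ)
        ≤ ENNReal.ofReal (m / 12) * ENNReal.ofReal m := by
          gcongr
          exact vol_JQ_le a
      _ = ENNReal.ofReal (m / 12 * m) := by rw [← ENNReal.ofReal_mul (by positivity)]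
      _ ≤ ENNReal.ofReal (ℓ ^ 2) := by
          apply ENNReal.ofReal_le_ofReal
          nlinarith

/-- integral of the reciprocal square root -/
theorem lint_rsqrt {a b κ : ℝ} (ha : 0 ≤ a) (hab : a ≤ b) (hκ : 0 ≤ κ) :
    ∫⁻ s in Ioc a b, ENNReal.ofReal (κ * s ^ (-(1 / 2) : ℝ)) =
      ENNReal.ofReal (κ * (2 * (Real.sqrt b - Real.sqrt a))) := by
  have hb : 0 ≤ b := le_trans ha hab
  have hint : IntervalIntegrable (fun s : ℝ => s ^ (-(1 / 2) : ℝ)) volume a b :=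
    intervalIntegral.intervalIntegrable_rpow' (by norm_num)
  have hint2 : IntegrableOn (fun s : ℝ => κ * s ^ (-(1 / 2) : ℝ)) (Ioc a b) volume := by
    have := hint.const_mul κ
    rwa [intervalIntegrable_iff_integrableOn_Ioc_of_le hab] at this
  rw [← ofReal_integral_eq_lintegral_ofReal hint2]
  · congr 1
    rw [← intervalIntegral.integral_of_le hab, intervalIntegral.integral_const_mul,
      integral_rpow (Or.inl (by norm_num))]
    have e : (-(1 / 2) + 1 : ℝ) = 1 / 2 := by norm_num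
    rw [e, Real.sqrt_eq_rpow, Real.sqrt_eq_rpow]
    ring
  · rw [EventuallyLE, ae_restrict_iff' measurableSet_Ioc]
    apply Eventually.of_forall
    intro s hs
    have : 0 ≤ s := le_trans ha hs.1.le
    have := Real.rpow_nonneg this (-(1 / 2) : ℝ)
    simp only [Pi.zero_apply]
    positivity

theorem JQ_sub (a : Fin 2 → ℝ) (ℓ : ℝ) :
    JQ a ℓ ⊆ Ico (max 0 (a 0)) (min 1 (a 0 + ℓ)) := by
  intro s hs
  exact ⟨max_le hs.1.1.le hs.2.1, lt_min hs.1.2 hs.2.2⟩

/-- second condition: bump on `u` -/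
theorem cond2_aux {Q : Set (Fin 2 → ℝ)} {a : Fin 2 → ℝ} {ℓ α β : ℝ} (hℓ : 0 < ℓ)
    (h : IsCube Q a ℓ) (hα : α = max 0 (a 0)) (hβ : β = min 1 (a 0 + ℓ)) (hαβ : α < β) :
    ∫⁻ x in Q, ENNReal.ofReal (A (u x ^ (1 / 2 : ℝ) /
      (6 / Real.sqrt ((β - α) * cc β)))) ≤ volume Q := by
  have hα0 : 0 ≤ α := by rw [hα]; exact le_max_left _ _
  have hβ0 : 0 < β := lt_of_le_of_lt hα0 hαβ
  have hβ1 : β ≤ 1 := by rw [hβ]; exact min_le_left _ _
  have hcβ := cc_pos hβ0 hβ1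
  have hcβ1 := cc_le_one hβ0 hβ1
  have hlen : β - α ≤ ℓ := by
    have h1 : β ≤ a 0 + ℓ := by rw [hβ]; exact min_le_right _ _
    have h2 : a 0 ≤ α := by rw [hα]; exact le_max_right _ _
    linarith
  have hlen1 : β - α ≤ 1 := by linarith
  set g := (β - α) * cc β with hg
  have hg0 : 0 < g := mul_pos (by linarith) hcβ
  have hg1 : g ≤ 1 := mul_le_one₀ hlen1 hcβ.le hcβ1
  have hsg : 0 < Real.sqrt g := Real.sqrt_pos.mpr hg0
  have hsg2 : Real.sqrt g ^ 2 = g := Real.sq_sqrt hg0.le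
  have hψm : Measurable (fun s : ℝ => ENNReal.ofReal (g / 12 * (w s) ^ (3 / 2 : ℝ))) :=
    ((w_meas.pow_const _).const_mul _).ennreal_ofReal
  refine le_trans (lint_cube_le h _
    (fun s => ENNReal.ofReal (g / 12 * (w s) ^ (3 / 2 : ℝ))) hψm ?_ ?_) ?_
  · intro x hx _
    have hs := hx.1
    have hs1 := hx.2.1.le
    rw [u_of_mem hx]
    set s := x 0 with hsdef
    have hw := w_pos hs hs1
    have hwp := Real.rpow_nonneg hw.le (3 / 2 : ℝ)
    rw [← ENNReal.ofReal_mul (by positivity)]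
    apply ENNReal.ofReal_le_ofReal
    have hsq : 0 < (s ^ 2)⁻¹ := by positivity
    set τ := ((s ^ 2)⁻¹) ^ (1 / 2 : ℝ) / (6 / Real.sqrt g) with hτ
    have hτ0 : 0 ≤ τ := by positivity
    have hτ2 : τ ^ 2 = (s ^ 2)⁻¹ * g / 36 := by
      rw [hτ, div_pow, half_rpow_sq (by positivity), div_pow, hsg2]
      field_simp
      norm_num
    have hτs : τ ≤ 1 / s := by
      apply abs_le_of_sq_le_sq' _ (by positivity) |>.2
      rw [hτ2]
      have e : (1 / s) ^ 2 = (s ^ 2)⁻¹ := by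
        rw [one_div, inv_pow]
      rw [e]
      have e3 : (s ^ 2)⁻¹ * g ≤ (s ^ 2)⁻¹ * 1 := mul_le_mul_of_nonneg_left hg1 hsq.le
      linarith
    refine le_trans (A_bound hs hs1 hτ0 hτs) ?_
    rw [hτ2]
    apply le_of_eq
    ring
  · intro x hx
    rw [u_of_notMem hx, Real.zero_rpow (by norm_num), zero_div, A_zero, ENNReal.ofReal_zero]
  · rw [vol_cube hℓ h]
    have hwβ := w_pos hβ0 hβ1
    have hwβp := Real.rpow_pos_of_pos hwβ (3 / 2 : ℝ)
    set κ := g / 12 * (6 * Real.sqrt β * (w β) ^ (3 / 2 : ℝ)) with hκ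
    have hκ0 : 0 ≤ κ := by positivity
    calc ∫⁻ s in JQ a ℓ, ENNReal.ofReal (g / 12 * (w s) ^ (3 / 2 : ℝ))
        ≤ ∫⁻ s in Ico α β, ENNReal.ofReal (g / 12 * (w s) ^ (3 / 2 : ℝ)) := by
          apply lintegral_mono_set
          rw [hα, hβ]
          exact JQ_sub a ℓ
      _ = ∫⁻ s in Ioc α β, ENNReal.ofReal (g / 12 * (w s) ^ (3 / 2 : ℝ)) := by
          apply setLIntegral_congr
          exact Ico_ae_eq_Ioc
      _ ≤ ∫⁻ s in Ioc α β, ENNReal.ofReal (κ * s ^ (-(1 / 2) : ℝ)) := by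
          apply setLIntegral_mono' measurableSet_Ioc
          intro s hs
          apply ENNReal.ofReal_le_ofReal
          have hs0 : 0 < s := lt_of_le_of_lt hα0 hs.1
          have := w_growth hs0 hs.2 hβ1
          calc g / 12 * (w s) ^ (3 / 2 : ℝ) ≤ g / 12 *
              (6 * Real.sqrt β * s ^ (-(1 / 2) : ℝ) * (w β) ^ (3 / 2 : ℝ)) :=
                mul_le_mul_of_nonneg_left this (by positivity)
            _ = κ * s ^ (-(1 / 2) : ℝ) := by rw [hκ]; ring
      _ = ENNReal.ofReal (κ * (2 * (Real.sqrt β - Real.sqrt α))) :=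
          lint_rsqrt hα0 hαβ.le hκ0
      _ ≤ ENNReal.ofReal (ℓ ^ 2) := by
          apply ENNReal.ofReal_le_ofReal
          have e1 : κ * (2 * (Real.sqrt β - Real.sqrt α)) =
              (β - α) * (cc β * (w β) ^ (3 / 2 : ℝ)) *
              (Real.sqrt β * (Real.sqrt β - Real.sqrt α)) := by
            rw [hκ, hg]; ring
          rw [e1, cc_mul hβ0 hβ1, mul_one]
          have hsα : 0 ≤ Real.sqrt α := Real.sqrt_nonneg _
          have hsαβ : Real.sqrt α ≤ Real.sqrt β := Real.sqrt_le_sqrt hαβ.le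
          have q1 : Real.sqrt β ^ 2 = β := Real.sq_sqrt hβ0.le
          have q2 : Real.sqrt α ^ 2 = α := Real.sq_sqrt hα0
          have e2 : Real.sqrt β * (Real.sqrt β - Real.sqrt α) ≤ β - α := by nlinarith
          calc (β - α) * (Real.sqrt β * (Real.sqrt β - Real.sqrt α)) ≤ (β - α) * (β - α) :=
                mul_le_mul_of_nonneg_left e2 (by linarith)
            _ ≤ ℓ * ℓ := mul_le_mul hlen hlen (by linarith) hℓ.le
            _ = ℓ ^ 2 := by ring

/-- the `σ` mass of a cube -/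
theorem sg_cube_le {Q : Set (Fin 2 → ℝ)} {a : Fin 2 → ℝ} {ℓ α β : ℝ}
    (h : IsCube Q a ℓ) (hα : α = max 0 (a 0)) (hβ : β = min 1 (a 0 + ℓ)) :
    ∫⁻ x in Q, ENNReal.ofReal (sg x) ≤ ENNReal.ofReal ((β - α) * cc β) := by
  have hα0 : 0 ≤ α := by rw [hα]; exact le_max_left _ _
  have hβ1 : β ≤ 1 := by rw [hβ]; exact min_le_left _ _
  refine le_trans (lint_cube_le h _ (fun s => ENNReal.ofReal (cc s))
    cc_meas.ennreal_ofReal ?_ ?_) ?_
  · intro x hx _
    rw [sg_of_mem hx, ENNReal.ofReal_mul (cc_pos hx.1 hx.2.1.le).le]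
  · intro x hx
    rw [sg_of_notMem hx, ENNReal.ofReal_zero]
  · calc ∫⁻ s in JQ a ℓ, ENNReal.ofReal (cc s) ≤ ∫⁻ _s in JQ a ℓ, ENNReal.ofReal (cc β) := by
          apply setLIntegral_mono' (JQ_meas a ℓ)
          intro s hs
          apply ENNReal.ofReal_le_ofReal
          have hs' := JQ_sub a ℓ hs
          rw [← hα, ← hβ] at hs'
          exact cc_mono hs.1.1 hs'.2.le hβ1
      _ = ENNReal.ofReal (cc β) * volume (JQ a ℓ) := by rw [setLIntegral_const]
      _ ≤ ENNReal.ofReal (cc β) * ENNReal.ofReal (β - α) := by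
          gcongr
          rw [← Real.volume_Ico]
          apply measure_mono
          rw [hα, hβ]
          exact JQ_sub a ℓ
      _ = ENNReal.ofReal (β - α) * ENNReal.ofReal (cc β) := mul_comm _ _
      _ ≤ ENNReal.ofReal ((β - α) * cc β) := by
          rcases le_or_gt (β - α) 0 with h0 | h0
          · rw [ENNReal.ofReal_of_nonpos h0, zero_mul]
            exact zero_le
          · rw [ENNReal.ofReal_mul h0.le]

end Pool.Agent.SepBump
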