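import Pool.Agent.Lib.MP_7e0f1f_an.Conditions

set_option autoImplicit false

open MeasureTheory Set Filter Topology

namespace Pool.Agent.SepBump

/-- logarithmic integral -/
theorem lint_log {x₀ r h κ : ℝ} (hr : 0 ≤ r) (hh : 0 < h) (hκ : 0 ≤ κ) :
    ∫⁻ s in Ioc x₀ (x₀ + r), ENNReal.ofReal (κ * ((s - x₀) + h)⁻¹) =
      ENNReal.ofReal (κ * Real.log ((r + h) / h)) := by
  have hab : x₀ ≤ x₀ + r := by linarith
  have hderiv : ∀ s ∈ uIcc x₀ (x₀ + r),
      HasDerivAt (fun s => κ * Real.log ((s - x₀) + h)) (κ * ((s - x₀) + h)⁻¹) s := by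
    intro s hs
    rw [uIcc_of_le hab] at hs
    have hpos : 0 < (s - x₀) + h := by
      have := hs.1
      linarith
    have h1 : HasDerivAt (fun s : ℝ => (s - x₀) + h) 1 s := by
      simpa using ((hasDerivAt_id s).sub_const x₀).add_const h
    have h2 := (h1.log hpos.ne').const_mul κ
    simpa [one_div] using h2
  have hcont : ContinuousOn (fun s : ℝ => κ * ((s - x₀) + h)⁻¹) (uIcc x₀ (x₀ + r)) := by
    apply ContinuousOn.mul continuousOn_const
    apply ContinuousOn.inv₀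
    · fun_prop
    · intro s hs
      rw [uIcc_of_le hab] at hs
      have := hs.1
      have : 0 < (s - x₀) + h := by linarith
      exact this.ne'
  have hint : IntervalIntegrable (fun s : ℝ => κ * ((s - x₀) + h)⁻¹) volume x₀ (x₀ + r) :=
    hcont.intervalIntegrable
  have hval := intervalIntegral.integral_eq_sub_of_hasDerivAt hderiv hint
  have hint2 : IntegrableOn (fun s : ℝ => κ * ((s - x₀) + h)⁻¹) (Ioc x₀ (x₀ + r)) volume := by
    rwa [intervalIntegrable_iff_integrableOn_Ioc_of_le hab] at hint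
  rw [← ofReal_integral_eq_lintegral_ofReal hint2]
  · congr 1
    rw [← intervalIntegral.integral_of_le hab, hval]
    have e1 : x₀ + r - x₀ + h = r + h := by ring
    have e2 : x₀ - x₀ + h = h := by ring
    rw [e1, e2, Real.log_div (by linarith) hh.ne']
    ring
  · rw [EventuallyLE, ae_restrict_iff' measurableSet_Ioc]
    apply Eventually.of_forall
    intro s hs
    have := hs.1
    have : 0 < (s - x₀) + h := by linarith
    simp only [Pi.zero_apply]
    positivity

theorem dist_bound {t : ℝ} {x y : Fin 2 → ℝ} (_ht : 0 < t)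
    (hx : x ∈ Reg) (hx2 : x 0 < 2 * t) (hy : y ∈ Reg) (hy2 : y 0 ≤ 2 * t) (hxy : x 0 < y 0) :
    0 < Real.sqrt (∑ i, (x i - y i) ^ 2) ∧
      Real.sqrt (∑ i, (x i - y i) ^ 2) ≤ (y 0 - x 0) + 4 * t ^ 2 := by
  rw [Fin.sum_univ_two]
  constructor
  · apply Real.sqrt_pos.mpr
    have h1 : 0 < (x 0 - y 0) ^ 2 := by
      have : x 0 - y 0 ≠ 0 := by linarith
      positivity
    positivity
  · have a1 := hx.2.2.1
    have a2 := hx.2.2.2
    have a3 := hy.2.2.1
    have a4 := hy.2.2.2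
    have a5 : (x 0) ^ 2 ≤ 4 * t ^ 2 := by
      have := hx.1
      nlinarith
    have a6 : (y 0) ^ 2 ≤ 4 * t ^ 2 := by
      have := hy.1
      nlinarith
    apply Real.sqrt_le_iff.mpr
    constructor
    · have := sq_nonneg t
      linarith
    · have b1 : (x 1 - y 1) ^ 2 ≤ (4 * t ^ 2) ^ 2 := by
        apply sq_le_sq' <;> linarith
      have b2 : 0 ≤ (y 0 - x 0) * (4 * t ^ 2) := by
        apply mul_nonneg <;> nlinarith
      nlinarith

/-- lower bound for the potential -/
theorem inner_lower {t : ℝ} (ht : 0 < t) (ht4 : t ≤ 1 / 4) (x : Fin 2 → ℝ) (hx : x ∈ Reg)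
    (hx1 : t < x 0) (hx2 : x 0 < 3 / 2 * t) :
    ENNReal.ofReal (cc t * Real.log (1 + 1 / (8 * t))) ≤
      ∫⁻ y, ENNReal.ofReal ((RegJ (Ioo t (2 * t))).indicator (fun _ => (1:ℝ)) y * sg y *
        (Real.sqrt (∑ i, (x i - y i) ^ 2)) ^ (-1 : ℝ)) := by
  have hct : 0 < cc t := cc_pos ht (by linarith)
  set J' := Ioc (x 0) (x 0 + t / 2) with hJ'
  have hJs : J' ⊆ Ioo 0 1 := by
    intro s hs
    constructor
    · have := hs.1
      linarith
    · have := hs.2
      linarith
  have h := lint_RegJ J' measurableSet_Ioc hJs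
    (fun s => ENNReal.ofReal (cc t * ((s - x 0) + 4 * t ^ 2)⁻¹))
    ((((measurable_id.sub_const _).add_const _).inv.const_mul _).ennreal_ofReal)
  rw [hJ', lint_log (by linarith) (by positivity) hct.le] at h
  have e : (t / 2 + 4 * t ^ 2) / (4 * t ^ 2) = 1 + 1 / (8 * t) := by
    field_simp
    ring
  rw [e] at h
  rw [← h]
  apply lintegral_mono
  intro y
  by_cases hy : y ∈ RegJ (Ioc (x 0) (x 0 + t / 2))
  · rw [indicator_of_mem hy]
    have hyJ : y ∈ RegJ (Ioo t (2 * t)) := by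
      refine ⟨hy.1, ?_, ?_⟩
      · have := hy.2.1
        linarith
      · have := hy.2.2
        linarith
    simp only
    rw [indicator_of_mem hyJ, one_mul, sg_of_mem hy.1,
      ← ENNReal.ofReal_mul (by
        have := hy.2.1
        have : 0 < y 0 - x 0 + 4 * t ^ 2 := by
          have := sq_nonneg t
          nlinarith
        positivity)]
    apply ENNReal.ofReal_le_ofReal
    have hd := dist_bound ht hx (by linarith) hy.1 hyJ.2.2.le hy.2.1
    rw [Real.rpow_neg hd.1.le, Real.rpow_one]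
    have hcy : cc t ≤ cc (y 0) := cc_mono ht hyJ.2.1.le hy.1.2.1.le
    have hinv : (y 0 - x 0 + 4 * t ^ 2)⁻¹ ≤ (Real.sqrt (∑ i, (x i - y i) ^ 2))⁻¹ :=
      inv_anti₀ hd.1 hd.2
    have hp1 : 0 < (y 0 - x 0 + 4 * t ^ 2) := lt_of_lt_of_le hd.1 hd.2
    have hy0 : 0 < y 0 := hy.1.1
    calc cc t * (y 0 - x 0 + 4 * t ^ 2)⁻¹ * (y 0 ^ 2)⁻¹
        ≤ cc (y 0) * (Real.sqrt (∑ i, (x i - y i) ^ 2))⁻¹ * (y 0 ^ 2)⁻¹ := by
          apply mul_le_mul_of_nonneg_right _ (by positivity)
          exact mul_le_mul hcy hinv (by positivity) (le_trans hct.le hcy)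
      _ = cc (y 0) * (y 0 ^ 2)⁻¹ * (Real.sqrt (∑ i, (x i - y i) ^ 2))⁻¹ := by ring
  · rw [indicator_of_notMem hy]
    exact zero_le

/-- the numerical choice -/
theorem choice (C : ℝ) : ∃ t : ℝ, 0 < t ∧ t ≤ 1 / 4 ∧
    |C| * (t * cc (2 * t)) < (cc t * Real.log (1 + 1 / (8 * t))) ^ 2 * (t / 2) := by
  set X := (18 * |C| + 2) ^ 2 with hX
  have hC := abs_nonneg C
  have hX4 : 4 ≤ X := by
    rw [hX]
    nlinarith
  have hexp : 0 < Real.exp (-X) := Real.exp_pos _
  have hexp1 : Real.exp (-X) ≤ 1 := Real.exp_le_one_iff.mpr (by linarith)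
  refine ⟨Real.exp (-X) / 8, by positivity, by linarith, ?_⟩
  set t := Real.exp (-X) / 8 with ht
  have ht0 : 0 < t := by positivity
  have ht1 : t ≤ 1 / 8 := by linarith
  have hlog8 : Real.log 8 ≤ 3 := by
    have : (8:ℝ) = 2 ^ 3 := by norm_num
    rw [this, Real.log_pow]
    have := Real.log_two_lt_d9
    push_cast
    linarith
  have hwt : w t = 1 + X + Real.log 8 := by
    unfold w
    rw [ht, Real.log_div hexp.ne' (by norm_num), Real.log_exp]
    ring
  have hlog8' : 0 ≤ Real.log 8 := Real.log_nonneg (by norm_num)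
  have hwt2 : w t ≤ 2 * X := by rw [hwt]; linarith
  have hwt0 : 0 < w t := by rw [hwt]; linarith
  have hL : X ≤ Real.log (1 + 1 / (8 * t)) := by
    have e : 1 / (8 * t) = Real.exp X := by
      rw [ht, Real.exp_neg]
      field_simp
    rw [e]
    calc X = Real.log (Real.exp X) := (Real.log_exp X).symm
      _ ≤ Real.log (1 + Real.exp X) := by
        apply Real.log_le_log (Real.exp_pos _)
        linarith
  have hcc : 0 < cc t := cc_pos ht0 (by linarith)
  -- cc (2 t) ≤ 3 cc t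
  have hcc2 : cc (2 * t) ≤ 3 * cc t := by
    unfold cc
    have h2t : w t / 2 ≤ w (2 * t) := by
      have e : w t = w (2 * t) + Real.log 2 := by
        unfold w
        rw [Real.log_mul (by norm_num) ht0.ne']
        ring
      have h1 := w_ge_one (by linarith : 0 < 2 * t) (by linarith)
      have h2 := Real.log_two_lt_d9
      linarith
    calc (w (2 * t)) ^ (-(3 / 2) : ℝ) ≤ (w t / 2) ^ (-(3 / 2) : ℝ) :=
          Real.rpow_le_rpow_of_nonpos (by linarith) h2t (by norm_num)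
      _ = (2 : ℝ) ^ (3 / 2 : ℝ) * (w t) ^ (-(3 / 2) : ℝ) := by
          rw [Real.div_rpow hwt0.le (by norm_num), Real.rpow_neg (by norm_num : (0:ℝ) ≤ 2)]
          field_simp
      _ ≤ 3 * (w t) ^ (-(3 / 2) : ℝ) :=
          mul_le_mul_of_nonneg_right two_rpow (Real.rpow_nonneg hwt0.le _)
  -- cc t * X ^ 2 ≥ (18 |C| + 2) / 3
  have hkey : 6 * |C| < cc t * (Real.log (1 + 1 / (8 * t))) ^ 2 := by
    have h1 : (2 * X) ^ (-(3 / 2) : ℝ) ≤ cc t :=
      Real.rpow_le_rpow_of_nonpos hwt0 hwt2 (by norm_num)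
    have h2 : X ^ 2 ≤ (Real.log (1 + 1 / (8 * t))) ^ 2 := by
      apply pow_le_pow_left₀ (by linarith) hL
    have h3 : (2 * X) ^ (-(3 / 2) : ℝ) * X ^ 2 = ((2:ℝ) ^ (3 / 2 : ℝ))⁻¹ * X ^ (1 / 2 : ℝ) := by
      rw [Real.mul_rpow (by norm_num) (by linarith), Real.rpow_neg (by norm_num : (0:ℝ) ≤ 2),
        mul_assoc, ← Real.rpow_natCast X 2, ← Real.rpow_add (by linarith)]
      norm_num
    have h4 : X ^ (1 / 2 : ℝ) = 18 * |C| + 2 := by
      rw [← Real.sqrt_eq_rpow, hX, Real.sqrt_sq (by linarith)]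
    have h5 : (1 / 3 : ℝ) ≤ ((2:ℝ) ^ (3 / 2 : ℝ))⁻¹ := by
      rw [one_div]
      exact inv_anti₀ (by positivity) two_rpow
    have h6 : (2 * X) ^ (-(3 / 2) : ℝ) * X ^ 2 ≤ cc t * (Real.log (1 + 1 / (8 * t))) ^ 2 :=
      mul_le_mul h1 h2 (by positivity) hcc.le
    rw [h3, h4] at h6
    have h7 : (1 / 3 : ℝ) * (18 * |C| + 2) ≤ ((2:ℝ) ^ (3 / 2 : ℝ))⁻¹ * (18 * |C| + 2) :=
      mul_le_mul_of_nonneg_right h5 (by linarith)
    linarith
  have e2 : (cc t * Real.log (1 + 1 / (8 * t))) ^ 2 * (t / 2) =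
      (cc t * (Real.log (1 + 1 / (8 * t))) ^ 2) * (cc t * (t / 2)) := by ring
  rw [e2]
  calc |C| * (t * cc (2 * t)) ≤ |C| * (t * (3 * cc t)) := by
        apply mul_le_mul_of_nonneg_left _ hC
        exact mul_le_mul_of_nonneg_left hcc2 ht0.le
    _ = (6 * |C|) * (cc t * (t / 2)) := by ring
    _ < (cc t * (Real.log (1 + 1 / (8 * t))) ^ 2) * (cc t * (t / 2)) :=
        mul_lt_mul_of_pos_right hkey (by positivity)

theorem failure (C : ℝ) : ∃ f : (Fin 2 → ℝ) → ℝ, Measurable f ∧ (∀ x, 0 ≤ f x) ∧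
    ENNReal.ofReal C * ∫⁻ x, ENNReal.ofReal (f x ^ (2 : ℝ) * sg x) <
      ∫⁻ x, (∫⁻ y, ENNReal.ofReal (f y * sg y *
        (Real.sqrt (∑ i, (x i - y i) ^ 2)) ^ (-1 : ℝ))) ^ (2 : ℝ) * ENNReal.ofReal (u x) := by
  obtain ⟨t, ht, ht4, hlt⟩ := choice C
  have hct : 0 < cc t := cc_pos ht (by linarith)
  have hc2t : 0 < cc (2 * t) := cc_pos (by linarith) (by linarith)
  have hL : 0 ≤ Real.log (1 + 1 / (8 * t)) := by
    apply Real.log_nonneg
    have : 0 < 1 / (8 * t) := by positivity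
    linarith
  have hm : MeasurableSet (RegJ (Ioo t (2 * t))) := RegJ_meas measurableSet_Ioo
  have hsub : Ioo t (2 * t) ⊆ Ioo 0 1 := by
    intro s hs
    exact ⟨by linarith [hs.1], by linarith [hs.2]⟩
  have hsub' : Ioo t (3 / 2 * t) ⊆ Ioo 0 1 := by
    intro s hs
    exact ⟨by linarith [hs.1], by linarith [hs.2]⟩
  refine ⟨(RegJ (Ioo t (2 * t))).indicator (fun _ => (1:ℝ)), measurable_const.indicator hm,
    ?_, ?_⟩
  · intro x
    apply indicator_nonneg
    intro _ _
    norm_num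
  · -- upper bound of the right side
    have hR : ∫⁻ x, ENNReal.ofReal ((RegJ (Ioo t (2 * t))).indicator (fun _ => (1:ℝ)) x ^ (2 : ℝ)
        * sg x) ≤ ENNReal.ofReal (t * cc (2 * t)) := by
      have h := lint_RegJ (Ioo t (2 * t)) measurableSet_Ioo hsub
        (fun _ => ENNReal.ofReal (cc (2 * t))) measurable_const
      rw [setLIntegral_const, Real.volume_Ioo] at h
      have e : 2 * t - t = t := by ring
      rw [e, ← ENNReal.ofReal_mul hc2t.le, mul_comm (cc (2 * t)) t] at h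
      rw [← h]
      apply lintegral_mono
      intro x
      by_cases hx : x ∈ RegJ (Ioo t (2 * t))
      · simp only
        rw [indicator_of_mem hx, indicator_of_mem hx, Real.one_rpow, one_mul, sg_of_mem hx.1,
          ENNReal.ofReal_mul (cc_pos hx.1.1 hx.1.2.1.le).le]
        gcongr
        exact cc_mono hx.1.1 hx.2.2.le (by linarith)
      · simp only
        rw [indicator_of_notMem hx, indicator_of_notMem hx, Real.zero_rpow (by norm_num), zero_mul,
          ENNReal.ofReal_zero]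
    -- lower bound of the left side
    set D := cc t * Real.log (1 + 1 / (8 * t)) with hD
    have hD0 : 0 ≤ D := mul_nonneg hct.le hL
    have hLow : ENNReal.ofReal (D ^ 2 * (t / 2)) ≤ ∫⁻ x, (∫⁻ y, ENNReal.ofReal
        ((RegJ (Ioo t (2 * t))).indicator (fun _ => (1:ℝ)) y * sg y *
        (Real.sqrt (∑ i, (x i - y i) ^ 2)) ^ (-1 : ℝ))) ^ (2 : ℝ) * ENNReal.ofReal (u x) := by
      have h := lint_RegJ (Ioo t (3 / 2 * t)) measurableSet_Ioo hsub'
        (fun _ => ENNReal.ofReal (D ^ 2)) measurable_const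
      rw [setLIntegral_const, Real.volume_Ioo] at h
      have e : 3 / 2 * t - t = t / 2 := by ring
      rw [e, ← ENNReal.ofReal_mul (by positivity)] at h
      rw [← h]
      apply lintegral_mono
      intro x
      by_cases hx : x ∈ RegJ (Ioo t (3 / 2 * t))
      · rw [indicator_of_mem hx]
        simp only
        rw [u_of_mem hx.1]
        gcongr
        have := inner_lower ht ht4 x hx.1 hx.2.1 hx.2.2
        calc ENNReal.ofReal (D ^ 2) = (ENNReal.ofReal D) ^ (2 : ℝ) := by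
              rw [ENNReal.ofReal_rpow_of_nonneg hD0 (by norm_num)]
              congr 1
              rw [← Real.rpow_natCast]
              norm_num
          _ ≤ _ := ENNReal.rpow_le_rpow this (by norm_num)
      · rw [indicator_of_notMem hx]
        exact zero_le
    have k1 : ENNReal.ofReal C * ∫⁻ x, ENNReal.ofReal
        ((RegJ (Ioo t (2 * t))).indicator (fun _ => (1:ℝ)) x ^ (2 : ℝ) * sg x) ≤
          ENNReal.ofReal (|C| * (t * cc (2 * t))) := by
      calc ENNReal.ofReal C * ∫⁻ x, ENNReal.ofReal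
            ((RegJ (Ioo t (2 * t))).indicator (fun _ => (1:ℝ)) x ^ (2 : ℝ) * sg x)
          ≤ ENNReal.ofReal |C| * ENNReal.ofReal (t * cc (2 * t)) := by
            gcongr
            exact le_abs_self C
        _ = ENNReal.ofReal (|C| * (t * cc (2 * t))) := by
            rw [ENNReal.ofReal_mul (abs_nonneg C)]
    have k2 : ENNReal.ofReal (|C| * (t * cc (2 * t))) < ENNReal.ofReal (D ^ 2 * (t / 2)) := by
      rw [ENNReal.ofReal_lt_ofReal_iff]
      · exact hlt
      · exact lt_of_le_of_lt (by positivity) hlt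
    exact lt_of_le_of_lt k1 (lt_of_lt_of_le k2 hLow)

end Pool.Agent.SepBump
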