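import Pool.Agent.Lib.MP_7e0f1f_an.Failure

set_option autoImplicit false

open MeasureTheory Set Filter Topology

namespace Pool.Agent.SepBump

theorem A_strictMono : StrictMonoOn A (Ici 0) := by
  intro s hs t ht h
  have hs' : (0:ℝ) ≤ s := hs
  have ht' : (0:ℝ) < t := lt_of_le_of_lt hs' h
  unfold A
  have hW : 0 < (W t) ^ (3 / 2 : ℝ) := Real.rpow_pos_of_pos (W_pos ht'.le) _
  calc s ^ 2 * (W s) ^ (3 / 2 : ℝ) ≤ s ^ 2 * (W t) ^ (3 / 2 : ℝ) := by
        apply mul_le_mul_of_nonneg_left _ (by positivity)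
        exact Real.rpow_le_rpow (W_pos hs').le (W_mono hs' h.le) (by norm_num)
    _ < t ^ 2 * (W t) ^ (3 / 2 : ℝ) := by
        apply mul_lt_mul_of_pos_right _ hW
        exact pow_lt_pow_left₀ h hs' (by norm_num)

theorem conj_bdd (t : ℝ) : BddAbove (range fun s : Ioi (0 : ℝ) => (s : ℝ) * t - A s) := by
  refine ⟨t ^ 2, ?_⟩
  rintro y ⟨⟨s, hs⟩, rfl⟩
  have hs' : (0:ℝ) < s := hs
  simp only
  have h1 : 1 ≤ (W s) ^ (3 / 2 : ℝ) := Real.one_le_rpow (W_ge_one hs'.le) (by norm_num)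
  have h2 : s ^ 2 ≤ A s := by
    unfold A
    exact le_mul_of_one_le_right (by positivity) h1
  nlinarith [sq_nonneg (s - t), sq_nonneg (s + t)]

/-- first separated bump constant -/
theorem bump1 (a : Fin 2 → ℝ) (ℓ : ℝ) (hℓ : 0 < ℓ) :
    (volume (Set.univ.pi (fun i => Set.Ico (a i) (a i + ℓ)))) ^ (1 / 2 : ℝ) *
      ((∫⁻ x in Set.univ.pi (fun i => Set.Ico (a i) (a i + ℓ)), ENNReal.ofReal (u x)) /
        volume (Set.univ.pi (fun i => Set.Ico (a i) (a i + ℓ)))) ^ (1 / 2 : ℝ) *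
      (⨅ (c : ℝ) (_ : 0 < c ∧ (∫⁻ x in Set.univ.pi (fun i => Set.Ico (a i) (a i + ℓ)),
          ENNReal.ofReal (A (sg x ^ (1 / 2 : ℝ) / c))) ≤
            volume (Set.univ.pi (fun i => Set.Ico (a i) (a i + ℓ)))), ENNReal.ofReal c) ≤
      ENNReal.ofReal 6 := by
  have hcube : IsCube (Set.univ.pi (fun i => Set.Ico (a i) (a i + ℓ))) a ℓ := rfl
  have hm0 : 0 < min ℓ 1 := lt_min hℓ one_pos
  have hs := Real.sqrt_pos.mpr hm0
  refine three_factors (lam := 6 / Real.sqrt (min ℓ 1)) hℓ hm0.le (by positivity)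
    (vol_cube hℓ hcube) (u_cube_le hcube) ?_ ?_
  · exact iInf₂_le (6 / Real.sqrt (min ℓ 1)) ⟨by positivity, cond1_aux hℓ hcube⟩
  · rw [mul_div_cancel₀]
    exact hs.ne'

/-- second separated bump constant -/
theorem bump2 (a : Fin 2 → ℝ) (ℓ : ℝ) (hℓ : 0 < ℓ) :
    (volume (Set.univ.pi (fun i => Set.Ico (a i) (a i + ℓ)))) ^ (1 / 2 : ℝ) *
      ((∫⁻ x in Set.univ.pi (fun i => Set.Ico (a i) (a i + ℓ)), ENNReal.ofReal (sg x)) /
        volume (Set.univ.pi (fun i => Set.Ico (a i) (a i + ℓ)))) ^ (1 / 2 : ℝ) *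
      (⨅ (c : ℝ) (_ : 0 < c ∧ (∫⁻ x in Set.univ.pi (fun i => Set.Ico (a i) (a i + ℓ)),
          ENNReal.ofReal (A (u x ^ (1 / 2 : ℝ) / c))) ≤
            volume (Set.univ.pi (fun i => Set.Ico (a i) (a i + ℓ)))), ENNReal.ofReal c) ≤
      ENNReal.ofReal 6 := by
  set Q := Set.univ.pi (fun i => Set.Ico (a i) (a i + ℓ)) with hQ
  have hcube : IsCube Q a ℓ := rfl
  have hσ := sg_cube_le hcube rfl rfl
  set α := max 0 (a 0) with hα
  set β := min 1 (a 0 + ℓ) with hβ
  rcases lt_or_ge α β with hαβ | hαβ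
  · have hβ0 : 0 < β := lt_of_le_of_lt (le_max_left _ _) hαβ
    have hβ1 : β ≤ 1 := min_le_left _ _
    have hcβ := cc_pos hβ0 hβ1
    have hg : 0 < (β - α) * cc β := mul_pos (by linarith) hcβ
    have hs := Real.sqrt_pos.mpr hg
    refine three_factors (lam := 6 / Real.sqrt ((β - α) * cc β)) hℓ hg.le
      (by positivity) (vol_cube hℓ hcube) hσ ?_ ?_
    · exact iInf₂_le (6 / Real.sqrt ((β - α) * cc β))
        ⟨by positivity, cond2_aux hℓ hcube hα hβ hαβ⟩
    · rw [mul_div_cancel₀]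
      exact hs.ne'
  · have h0 : ∫⁻ x in Q, ENNReal.ofReal (sg x) = 0 := by
      have hJ : JQ a ℓ = ∅ := by
        apply Set.eq_empty_of_forall_notMem
        intro s hs
        have := JQ_sub a ℓ hs
        have h1 := this.1
        have h2 := this.2
        linarith
      have := lint_cube_le hcube (fun x => ENNReal.ofReal (sg x))
        (fun s => ENNReal.ofReal (cc s)) cc_meas.ennreal_ofReal
        (fun x hx _ => by
          rw [sg_of_mem hx, ENNReal.ofReal_mul (cc_pos hx.1 hx.2.1.le).le])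
        (fun x hx => by rw [sg_of_notMem hx, ENNReal.ofReal_zero])
      rw [hJ] at this
      simpa using this
    rw [h0, ENNReal.zero_div, ENNReal.zero_rpow_of_pos (by norm_num), mul_zero, zero_mul]
    exact zero_le

/-- failure of the weak type inequality -/
theorem weak_failure (C : ℝ) : ∃ f : (Fin 2 → ℝ) → ℝ, Measurable f ∧ (∀ x, 0 ≤ f x) ∧
    ∃ τ : ℝ, 0 < τ ∧
    ENNReal.ofReal C * (∫⁻ x, ENNReal.ofReal (f x ^ 2 * sg x)) ^ (1 / 2 : ℝ) <
      ENNReal.ofReal τ * (∫⁻ x in {x | ENNReal.ofReal τ < ∫⁻ y, ENNReal.ofReal (f y * sg y *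
        (Real.sqrt (∑ i, (x i - y i) ^ 2))⁻¹)}, ENNReal.ofReal (u x)) ^ (1 / 2 : ℝ) := by
  obtain ⟨t, ht, ht4, hlt⟩ := choice (4 * C ^ 2)
  have hct : 0 < cc t := cc_pos ht (by linarith)
  have hc2t : 0 < cc (2 * t) := cc_pos (by linarith) (by linarith)
  have hm : MeasurableSet (RegJ (Ioo t (2 * t))) := RegJ_meas measurableSet_Ioo
  have hsub : Ioo t (2 * t) ⊆ Ioo 0 1 := by
    intro s hs
    exact ⟨by linarith [hs.1], by linarith [hs.2]⟩
  have hsub' : Ioo t (3 / 2 * t) ⊆ Ioo 0 1 := by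
    intro s hs
    exact ⟨by linarith [hs.1], by linarith [hs.2]⟩
  set D := cc t * Real.log (1 + 1 / (8 * t)) with hD
  have hD0 : 0 < D := by
    apply mul_pos hct
    apply Real.log_pos
    have : 0 < 1 / (8 * t) := by positivity
    linarith
  refine ⟨(RegJ (Ioo t (2 * t))).indicator (fun _ => (1:ℝ)), measurable_const.indicator hm,
    ?_, D / 2, by positivity, ?_⟩
  · intro x
    apply indicator_nonneg
    intro _ _
    norm_num
  · have hR : ∫⁻ x, ENNReal.ofReal ((RegJ (Ioo t (2 * t))).indicator (fun _ => (1:ℝ)) x ^ 2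
        * sg x) ≤ ENNReal.ofReal (t * cc (2 * t)) := by
      have h := lint_RegJ (Ioo t (2 * t)) measurableSet_Ioo hsub
        (fun _ => ENNReal.ofReal (cc (2 * t))) measurable_const
      rw [setLIntegral_const, Real.volume_Ioo] at h
      have e : 2 * t - t = t := by ring
      rw [e, ← ENNReal.ofReal_mul hc2t.le, mul_comm (cc (2 * t)) t] at h
      rw [← h]
      apply lintegral_mono
      intro x
      by_cases hx : x ∈ RegJ (Ioo t (2 * t))
      · simp only
        rw [indicator_of_mem hx, indicator_of_mem hx, one_pow, one_mul, sg_of_mem hx.1,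
          ENNReal.ofReal_mul (cc_pos hx.1.1 hx.1.2.1.le).le]
        gcongr
        exact cc_mono hx.1.1 hx.2.2.le (by linarith)
      · simp only
        rw [indicator_of_notMem hx, indicator_of_notMem hx]
        simp
    set S := {x : Fin 2 → ℝ | ENNReal.ofReal (D / 2) < ∫⁻ y, ENNReal.ofReal
        ((RegJ (Ioo t (2 * t))).indicator (fun _ => (1:ℝ)) y * sg y *
        (Real.sqrt (∑ i, (x i - y i) ^ 2))⁻¹)} with hS
    have hSsub : RegJ (Ioo t (3 / 2 * t)) ⊆ S := by
      intro x hx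
      have h1 := inner_lower ht ht4 x hx.1 hx.2.1 hx.2.2
      simp only [Real.rpow_neg_one] at h1
      have h2 : ENNReal.ofReal (D / 2) < ENNReal.ofReal D := by
        rw [ENNReal.ofReal_lt_ofReal_iff hD0]
        linarith
      exact lt_of_lt_of_le h2 h1
    have hLow : ENNReal.ofReal (t / 2) ≤ ∫⁻ x in S, ENNReal.ofReal (u x) := by
      have h := lint_u_J (Ioo t (3 / 2 * t)) measurableSet_Ioo hsub'
      rw [Real.volume_Ioo] at h
      have e : 3 / 2 * t - t = t / 2 := by ring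
      rw [e, lintegral_indicator (RegJ_meas measurableSet_Ioo)] at h
      rw [← h]
      exact lintegral_mono_set hSsub
    have k1 : ENNReal.ofReal C * (∫⁻ x, ENNReal.ofReal
        ((RegJ (Ioo t (2 * t))).indicator (fun _ => (1:ℝ)) x ^ 2 * sg x)) ^ (1 / 2 : ℝ) ≤
          ENNReal.ofReal (|C| * Real.sqrt (t * cc (2 * t))) := by
      have h1 : (∫⁻ x, ENNReal.ofReal
        ((RegJ (Ioo t (2 * t))).indicator (fun _ => (1:ℝ)) x ^ 2 * sg x)) ^ (1 / 2 : ℝ) ≤
          ENNReal.ofReal (Real.sqrt (t * cc (2 * t))) := by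
        rw [Real.sqrt_eq_rpow, ← ENNReal.ofReal_rpow_of_nonneg (by positivity) (by norm_num)]
        exact ENNReal.rpow_le_rpow hR (by norm_num)
      rw [ENNReal.ofReal_mul (abs_nonneg C)]
      gcongr
      exact le_abs_self C
    have k2 : ENNReal.ofReal (D / 2 * Real.sqrt (t / 2)) ≤
        ENNReal.ofReal (D / 2) * (∫⁻ x in S, ENNReal.ofReal (u x)) ^ (1 / 2 : ℝ) := by
      rw [ENNReal.ofReal_mul (by positivity), Real.sqrt_eq_rpow,
        ← ENNReal.ofReal_rpow_of_nonneg (by positivity) (by norm_num)]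
      gcongr
    have k3 : ENNReal.ofReal (|C| * Real.sqrt (t * cc (2 * t))) <
        ENNReal.ofReal (D / 2 * Real.sqrt (t / 2)) := by
      rw [ENNReal.ofReal_lt_ofReal_iff (by positivity)]
      have hp : 0 ≤ D / 2 * Real.sqrt (t / 2) := by positivity
      apply lt_of_pow_lt_pow_left₀ 2 hp
      rw [mul_pow, mul_pow, Real.sq_sqrt (by positivity), Real.sq_sqrt (by positivity), sq_abs]
      rw [abs_of_nonneg (by positivity)] at hlt
      nlinarith
    exact lt_of_le_of_lt k1 (lt_of_lt_of_le k3 k2)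

end Pool.Agent.SepBump
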