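import Pool.Agent.Lib.MP_7e0f1f_an.Basic

set_option autoImplicit false

open MeasureTheory Set Filter Topology

namespace Pool.Agent.SepBump

noncomputable def w (s : ℝ) : ℝ := 1 - Real.log s

noncomputable def cc (s : ℝ) : ℝ := (w s) ^ (-(3 / 2) : ℝ)

/-- the weight `u` -/
noncomputable def u : (Fin 2 → ℝ) → ℝ := Reg.indicator (fun x => ((x 0) ^ 2)⁻¹)

/-- the weight `σ` -/
noncomputable def sg : (Fin 2 → ℝ) → ℝ := Reg.indicator (fun x => cc (x 0) * ((x 0) ^ 2)⁻¹)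

theorem w_ge_one {s : ℝ} (_hs : 0 < s) (hs1 : s ≤ 1) : 1 ≤ w s := by
  unfold w
  have := Real.log_nonpos _hs.le hs1
  linarith

theorem w_pos {s : ℝ} (hs : 0 < s) (hs1 : s ≤ 1) : 0 < w s := by
  have := w_ge_one hs hs1
  linarith

theorem w_anti {s t : ℝ} (hs : 0 < s) (h : s ≤ t) : w t ≤ w s := by
  unfold w
  have := Real.log_le_log hs h
  linarith

theorem w_meas : Measurable w := by
  unfold w
  exact measurable_const.sub Real.measurable_log

theorem cc_pos {s : ℝ} (hs : 0 < s) (hs1 : s ≤ 1) : 0 < cc s :=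
  Real.rpow_pos_of_pos (w_pos hs hs1) _

theorem cc_le_one {s : ℝ} (hs : 0 < s) (hs1 : s ≤ 1) : cc s ≤ 1 :=
  Real.rpow_le_one_of_one_le_of_nonpos (w_ge_one hs hs1) (by norm_num)

theorem cc_mono {s t : ℝ} (hs : 0 < s) (h : s ≤ t) (ht : t ≤ 1) : cc s ≤ cc t := by
  unfold cc
  exact Real.rpow_le_rpow_of_nonpos (w_pos (lt_of_lt_of_le hs h) ht) (w_anti hs h) (by norm_num)

theorem cc_meas : Measurable cc := by
  unfold cc
  exact w_meas.pow_const _

theorem cc_mul {s : ℝ} (hs : 0 < s) (hs1 : s ≤ 1) : cc s * (w s) ^ (3 / 2 : ℝ) = 1 := by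
  unfold cc
  rw [← Real.rpow_add (w_pos hs hs1)]
  norm_num

theorem two_rpow : (2 : ℝ) ^ (3 / 2 : ℝ) ≤ 3 := by
  have h : ((2 : ℝ) ^ (3 / 2 : ℝ)) ^ 2 = 8 := by
    rw [← Real.rpow_natCast, ← Real.rpow_mul (by norm_num)]
    norm_num
  by_contra hc
  push Not at hc
  nlinarith

theorem three_rpow : (3 : ℝ) ^ (3 / 2 : ℝ) ≤ 6 := by
  have h : ((3 : ℝ) ^ (3 / 2 : ℝ)) ^ 2 = 27 := by
    rw [← Real.rpow_natCast, ← Real.rpow_mul (by norm_num)]
    norm_num
  by_contra hc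
  push Not at hc
  nlinarith

theorem W_inv_le {s : ℝ} (hs : 0 < s) (hs1 : s ≤ 1) : W (1 / s) ≤ 2 * w s := by
  unfold W w
  have h1 : 1 + 1 / s ≤ 2 / s := by
    have e1 : 1 ≤ 1 / s := by
      rw [le_div_iff₀ hs]
      linarith
    have e2 : 2 / s = 1 / s + 1 / s := by ring
    linarith
  have h2 : Real.log (1 + 1 / s) ≤ Real.log (2 / s) := by
    apply Real.log_le_log _ h1
    positivity
  rw [Real.log_div (by norm_num) hs.ne'] at h2
  have h3 : Real.log 2 ≤ 1 := by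
    have := Real.log_two_lt_d9
    linarith
  have h4 := Real.log_nonpos hs.le hs1
  linarith

theorem A_bound {s τ : ℝ} (hs : 0 < s) (hs1 : s ≤ 1) (hτ : 0 ≤ τ) (h : τ ≤ 1 / s) :
    A τ ≤ τ ^ 2 * (3 * (w s) ^ (3 / 2 : ℝ)) := by
  unfold A
  apply mul_le_mul_of_nonneg_left _ (by positivity)
  have hw := w_pos hs hs1
  calc (W τ) ^ (3 / 2 : ℝ) ≤ (2 * w s) ^ (3 / 2 : ℝ) := by
        apply Real.rpow_le_rpow (W_pos hτ).le _ (by norm_num)
        exact le_trans (W_mono hτ h) (W_inv_le hs hs1)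
    _ = (2 : ℝ) ^ (3 / 2 : ℝ) * (w s) ^ (3 / 2 : ℝ) := Real.mul_rpow (by norm_num) hw.le
    _ ≤ 3 * (w s) ^ (3 / 2 : ℝ) :=
        mul_le_mul_of_nonneg_right two_rpow (Real.rpow_nonneg hw.le _)

theorem w_growth {s b : ℝ} (hs : 0 < s) (hsb : s ≤ b) (hb : b ≤ 1) :
    (w s) ^ (3 / 2 : ℝ) ≤ 6 * Real.sqrt b * s ^ (-(1 / 2) : ℝ) * (w b) ^ (3 / 2 : ℝ) := by
  have hb0 : 0 < b := lt_of_lt_of_le hs hsb
  have hwb := w_ge_one hb0 hb
  set x := b / s with hx
  have hx1 : 1 ≤ x := by rw [hx, le_div_iff₀ hs]; linarith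
  have hx0 : 0 < x := by linarith
  have hlx : 0 ≤ Real.log x := Real.log_nonneg hx1
  have h1 : w s = w b + Real.log x := by
    unfold w
    rw [hx, Real.log_div hb0.ne' hs.ne']
    ring
  have h2 : w s ≤ w b * (1 + Real.log x) := by
    rw [h1]
    nlinarith
  have h3 : 1 + Real.log x ≤ 3 * x ^ (1 / 3 : ℝ) := by
    have hp : 0 < x ^ (1 / 3 : ℝ) := Real.rpow_pos_of_pos hx0 _
    have := Real.log_le_sub_one_of_pos hp
    rw [Real.log_rpow hx0] at this
    linarith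
  have h4 : w s ≤ w b * (3 * x ^ (1 / 3 : ℝ)) :=
    le_trans h2 (mul_le_mul_of_nonneg_left h3 (by linarith))
  have hws : 0 ≤ w s := (w_pos hs (le_trans hsb hb)).le
  calc (w s) ^ (3 / 2 : ℝ) ≤ (w b * (3 * x ^ (1 / 3 : ℝ))) ^ (3 / 2 : ℝ) :=
        Real.rpow_le_rpow hws h4 (by norm_num)
    _ = (w b) ^ (3 / 2 : ℝ) * ((3 : ℝ) ^ (3 / 2 : ℝ) * x ^ (1 / 2 : ℝ)) := by
        have hp : 0 < x ^ (1 / 3 : ℝ) := Real.rpow_pos_of_pos hx0 _
        rw [Real.mul_rpow (by linarith) (by positivity), Real.mul_rpow (by norm_num) hp.le,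
          ← Real.rpow_mul hx0.le]
        norm_num
    _ ≤ (w b) ^ (3 / 2 : ℝ) * (6 * x ^ (1 / 2 : ℝ)) := by
        have hp : 0 < x ^ (1 / 2 : ℝ) := Real.rpow_pos_of_pos hx0 _
        apply mul_le_mul_of_nonneg_left _ (Real.rpow_nonneg (by linarith) _)
        exact mul_le_mul_of_nonneg_right three_rpow hp.le
    _ = 6 * Real.sqrt b * s ^ (-(1 / 2) : ℝ) * (w b) ^ (3 / 2 : ℝ) := by
        have : x ^ (1 / 2 : ℝ) = Real.sqrt b * s ^ (-(1 / 2) : ℝ) := by
          rw [hx, Real.div_rpow hb0.le hs.le, Real.rpow_neg hs.le, ← Real.sqrt_eq_rpow]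
          rfl
        rw [this]
        ring

theorem u_nonneg (x : Fin 2 → ℝ) : 0 ≤ u x := by
  unfold u
  apply indicator_nonneg
  intro x _
  positivity

theorem sg_nonneg (x : Fin 2 → ℝ) : 0 ≤ sg x := by
  unfold sg
  apply indicator_nonneg
  intro x hx
  have := cc_pos hx.1 hx.2.1.le
  positivity

theorem u_of_mem {x : Fin 2 → ℝ} (hx : x ∈ Reg) : u x = ((x 0) ^ 2)⁻¹ := by
  unfold u
  rw [indicator_of_mem hx]

theorem sg_of_mem {x : Fin 2 → ℝ} (hx : x ∈ Reg) : sg x = cc (x 0) * ((x 0) ^ 2)⁻¹ := by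
  unfold sg
  rw [indicator_of_mem hx]

theorem u_of_notMem {x : Fin 2 → ℝ} (hx : x ∉ Reg) : u x = 0 := by
  unfold u
  rw [indicator_of_notMem hx]

theorem sg_of_notMem {x : Fin 2 → ℝ} (hx : x ∉ Reg) : sg x = 0 := by
  unfold sg
  rw [indicator_of_notMem hx]

theorem sg_le_u (x : Fin 2 → ℝ) : sg x ≤ u x := by
  by_cases hx : x ∈ Reg
  · rw [sg_of_mem hx, u_of_mem hx]
    have h1 := cc_le_one hx.1 hx.2.1.le
    have h2 : 0 ≤ ((x 0) ^ 2)⁻¹ := by positivity
    exact mul_le_of_le_one_left h2 h1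
  · rw [sg_of_notMem hx, u_of_notMem hx]

theorem u_meas : Measurable u := by
  have h0 : Measurable (fun x : Fin 2 → ℝ => x 0) := measurable_pi_apply 0
  exact Measurable.indicator (h0.pow_const 2).inv Reg_meas

theorem sg_meas : Measurable sg := by
  have h0 : Measurable (fun x : Fin 2 → ℝ => x 0) := measurable_pi_apply 0
  exact Measurable.indicator ((cc_meas.comp h0).mul (h0.pow_const 2).inv) Reg_meas

/-- total mass of `u` over a measurable set of abscissae -/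
theorem lint_u_J (J : Set ℝ) (hJ : MeasurableSet J) (hJs : J ⊆ Ioo 0 1) :
    ∫⁻ x, (RegJ J).indicator (fun x => ENNReal.ofReal (u x)) x = volume J := by
  have h := lint_RegJ J hJ hJs (fun _ => 1) measurable_const
  rw [setLIntegral_one] at h
  rw [← h]
  apply lintegral_congr
  intro x
  by_cases hx : x ∈ RegJ J
  · rw [indicator_of_mem hx, indicator_of_mem hx, u_of_mem hx.1, one_mul]
  · rw [indicator_of_notMem hx, indicator_of_notMem hx]

theorem u_integrable : Integrable u volume := by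
  refine ⟨u_meas.aestronglyMeasurable, ?_⟩
  rw [hasFiniteIntegral_iff_ofReal (Eventually.of_forall u_nonneg)]
  have h := lint_u_J (Ioo 0 1) measurableSet_Ioo subset_rfl
  have h2 : ∫⁻ x, ENNReal.ofReal (u x) =
      ∫⁻ x, (RegJ (Ioo 0 1)).indicator (fun x => ENNReal.ofReal (u x)) x := by
    apply lintegral_congr
    intro x
    by_cases hx : x ∈ Reg
    · rw [indicator_of_mem (show x ∈ RegJ (Ioo 0 1) from ⟨hx, hx.1, hx.2.1⟩)]
    · rw [indicator_of_notMem (fun h => hx h.1), u_of_notMem hx, ENNReal.ofReal_zero]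
  rw [h2, h, Real.volume_Ioo]
  exact ENNReal.ofReal_lt_top

theorem sg_integrable : Integrable sg volume := by
  apply u_integrable.mono' sg_meas.aestronglyMeasurable
  apply Eventually.of_forall
  intro x
  rw [Real.norm_of_nonneg (sg_nonneg x)]
  exact sg_le_u x

end Pool.Agent.SepBump
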