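import Mathlib

set_option autoImplicit false

open MeasureTheory Set Filter Topology

namespace Pool.Agent.SepBump

/-- the slowly varying factor `1 + log (1 + t)` -/
noncomputable def W (t : ℝ) : ℝ := 1 + Real.log (1 + t)

theorem W_ge_one {t : ℝ} (ht : 0 ≤ t) : 1 ≤ W t := by
  unfold W
  have := Real.log_nonneg (by linarith : (1:ℝ) ≤ 1 + t)
  linarith

theorem W_pos {t : ℝ} (ht : 0 ≤ t) : 0 < W t := by
  have := W_ge_one ht
  linarith

theorem W_mono {s t : ℝ} (hs : 0 ≤ s) (h : s ≤ t) : W s ≤ W t := by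
  unfold W
  have := Real.log_le_log (by linarith : (0:ℝ) < 1 + s) (by linarith : 1 + s ≤ 1 + t)
  linarith

/-- the log bump `t ^ 2 (1 + log (1 + t)) ^ (3 / 2)` -/
noncomputable def A (t : ℝ) : ℝ := t ^ 2 * (W t) ^ (3 / 2 : ℝ)

theorem A_nonneg {t : ℝ} (ht : 0 ≤ t) : 0 ≤ A t := by
  unfold A
  have := Real.rpow_nonneg (W_pos ht).le (3 / 2 : ℝ)
  positivity

theorem A_zero : A 0 = 0 := by
  simp [A]

theorem A_mono : MonotoneOn A (Ici 0) := by
  intro s hs t ht h
  have hs' : (0:ℝ) ≤ s := hs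
  have ht' : (0:ℝ) ≤ t := ht
  unfold A
  apply mul_le_mul
  · exact pow_le_pow_left₀ hs' h 2
  · exact Real.rpow_le_rpow (W_pos hs').le (W_mono hs' h) (by norm_num)
  · exact Real.rpow_nonneg (W_pos hs').le _
  · positivity

theorem W_hasDerivAt {t : ℝ} (ht : 0 ≤ t) : HasDerivAt W (1 / (1 + t)) t := by
  unfold W
  have h1 : HasDerivAt (fun t : ℝ => 1 + t) 1 t := by
    simpa using (hasDerivAt_id t).const_add 1
  have h2 := h1.log (by linarith : (1 + t : ℝ) ≠ 0)
  simpa using h2.const_add 1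

theorem A_hasDerivAt {t : ℝ} (ht : 0 ≤ t) :
    HasDerivAt A (2 * t * (W t) ^ (3 / 2 : ℝ) +
      t ^ 2 * ((1 / (1 + t)) * (3 / 2 : ℝ) * (W t) ^ (3 / 2 - 1 : ℝ))) t := by
  have h1 := (W_hasDerivAt ht).rpow_const (p := (3 / 2 : ℝ)) (Or.inl (W_pos ht).ne')
  have h2 : HasDerivAt (fun t : ℝ => t ^ 2) (2 * t) t := by
    simpa using hasDerivAt_pow 2 t
  exact h2.mul h1

theorem A_convex : ConvexOn ℝ (Ici 0) A := by
  apply MonotoneOn.convexOn_of_deriv (convex_Ici 0)
  · intro t ht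
    exact (A_hasDerivAt ht).continuousAt.continuousWithinAt
  · rw [interior_Ici]
    intro t ht
    exact (A_hasDerivAt (le_of_lt ht)).differentiableAt.differentiableWithinAt
  · rw [interior_Ici]
    intro s hs t ht h
    have hs' : (0:ℝ) < s := hs
    have ht' : (0:ℝ) < t := ht
    rw [(A_hasDerivAt hs'.le).deriv, (A_hasDerivAt ht'.le).deriv]
    have e1 : (W s) ^ (3 / 2 : ℝ) ≤ (W t) ^ (3 / 2 : ℝ) :=
      Real.rpow_le_rpow (W_pos hs'.le).le (W_mono hs'.le h) (by norm_num)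
    have e2 : (W s) ^ (3 / 2 - 1 : ℝ) ≤ (W t) ^ (3 / 2 - 1 : ℝ) :=
      Real.rpow_le_rpow (W_pos hs'.le).le (W_mono hs'.le h) (by norm_num)
    have p1 : 0 ≤ (W s) ^ (3 / 2 : ℝ) := Real.rpow_nonneg (W_pos hs'.le).le _
    have p2 : 0 ≤ (W s) ^ (3 / 2 - 1 : ℝ) := Real.rpow_nonneg (W_pos hs'.le).le _
    have e3 : s ^ 2 * (1 / (1 + s)) ≤ t ^ 2 * (1 / (1 + t)) := by
      rw [mul_one_div, mul_one_div, div_le_div_iff₀ (by linarith) (by linarith)]
      have : s ^ 2 * (1 + t) = s ^ 2 + s * (s * t) := by ring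
      have h2 : t ^ 2 * (1 + s) = t ^ 2 + t * (s * t) := by ring
      rw [this, h2]
      have q1 : s ^ 2 ≤ t ^ 2 := pow_le_pow_left₀ hs'.le h 2
      have q2 : s * (s * t) ≤ t * (s * t) := mul_le_mul_of_nonneg_right h (by positivity)
      linarith
    apply add_le_add
    · apply mul_le_mul (by linarith) e1 p1 (by linarith)
    · have l : s ^ 2 * (1 / (1 + s) * (3 / 2) * W s ^ (3 / 2 - 1 : ℝ)) =
          (s ^ 2 * (1 / (1 + s))) * ((3 / 2) * W s ^ (3 / 2 - 1 : ℝ)) := by ring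
      have r : t ^ 2 * (1 / (1 + t) * (3 / 2) * W t ^ (3 / 2 - 1 : ℝ)) =
          (t ^ 2 * (1 / (1 + t))) * ((3 / 2) * W t ^ (3 / 2 - 1 : ℝ)) := by ring
      rw [l, r]
      apply mul_le_mul e3 (by linarith) (by linarith)
      have : (0:ℝ) < 1 + t := by linarith
      positivity

theorem A_superlinear : Tendsto (fun t : ℝ => A t / t) atTop atTop := by
  apply tendsto_atTop_mono' atTop _ tendsto_id
  filter_upwards [eventually_gt_atTop 0] with t ht
  have h1 : 1 ≤ (W t) ^ (3 / 2 : ℝ) := Real.one_le_rpow (W_ge_one ht.le) (by norm_num)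
  have : A t / t = t * (W t) ^ (3 / 2 : ℝ) := by
    unfold A
    field_simp
  simp only [id]
  rw [this]
  exact le_mul_of_one_le_right ht.le h1

/-- bound for the conjugate function -/
theorem conj_le {t : ℝ} (ht : 1 < t) :
    (⨆ s : Ioi (0 : ℝ), ((s : ℝ) * t - A s)) ≤
      t ^ (3 / 2 : ℝ) + t ^ 2 * (1 + Real.log t / 2) ^ (-(3 / 2) : ℝ) := by
  have htp : 0 < t := by linarith
  have hlog : 0 ≤ Real.log t := Real.log_nonneg ht.le
  have hv : 0 < 1 + Real.log t / 2 := by linarith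
  have hvv : 0 < (1 + Real.log t / 2) ^ (-(3 / 2) : ℝ) := Real.rpow_pos_of_pos hv _
  have : Nonempty (Ioi (0 : ℝ)) := ⟨⟨1, by norm_num⟩⟩
  apply ciSup_le
  rintro ⟨s, hs⟩
  have hs' : 0 < s := hs
  simp only
  by_cases hst : s ≤ Real.sqrt t
  · have h1 : s * t ≤ t ^ (3 / 2 : ℝ) := by
      have : t ^ (3 / 2 : ℝ) = Real.sqrt t * t := by
        rw [Real.sqrt_eq_rpow]
        conv_rhs => rw [← Real.rpow_one t]
        rw [Real.rpow_one, ← Real.rpow_add_one htp.ne']
        norm_num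
      rw [this]
      exact mul_le_mul_of_nonneg_right hst htp.le
    have h2 := A_nonneg hs'.le
    have h3 : 0 ≤ t ^ 2 * (1 + Real.log t / 2) ^ (-(3 / 2) : ℝ) := by positivity
    linarith
  · push Not at hst
    set V := (1 + Real.log t / 2) ^ (3 / 2 : ℝ) with hV
    have hVpos : 0 < V := Real.rpow_pos_of_pos hv _
    have hVinv : (1 + Real.log t / 2) ^ (-(3 / 2) : ℝ) = V⁻¹ := by
      rw [Real.rpow_neg hv.le]
    have hW : 1 + Real.log t / 2 ≤ W s := by
      unfold W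
      have : Real.log t / 2 = Real.log (Real.sqrt t) := by
        rw [Real.log_sqrt htp.le]
      rw [this]
      have := Real.log_le_log (Real.sqrt_pos.mpr htp) (by linarith : Real.sqrt t ≤ 1 + s)
      linarith
    have hA : s ^ 2 * V ≤ A s := by
      unfold A
      apply mul_le_mul_of_nonneg_left _ (by positivity)
      exact Real.rpow_le_rpow hv.le hW (by norm_num)
    have h4 : s * t - s ^ 2 * V ≤ t ^ 2 * V⁻¹ := by
      have e : t ^ 2 * V⁻¹ - (s * t - s ^ 2 * V) =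
          ((s * V - t / 2) ^ 2 + 3 / 4 * t ^ 2) * V⁻¹ := by
        field_simp
        ring
      have : 0 ≤ ((s * V - t / 2) ^ 2 + 3 / 4 * t ^ 2) * V⁻¹ := by positivity
      linarith
    have h5 : 0 ≤ t ^ (3 / 2 : ℝ) := Real.rpow_nonneg htp.le _
    rw [hVinv]
    linarith

theorem int_aux1 : IntegrableOn (fun t : ℝ => t ^ (-(3 / 2) : ℝ)) (Ioi 1) volume :=
  integrableOn_Ioi_rpow_of_lt (by norm_num) (by norm_num)

theorem int_aux2 : IntegrableOn
    (fun t : ℝ => t⁻¹ * (1 + Real.log t / 2) ^ (-(3 / 2) : ℝ)) (Ioi 1) volume := by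
  have hd : ∀ t : ℝ, 1 ≤ t → HasDerivAt (fun t : ℝ => (-4) * (1 + Real.log t / 2) ^ (-(1 / 2) : ℝ))
      (t⁻¹ * (1 + Real.log t / 2) ^ (-(3 / 2) : ℝ)) t := by
    intro t ht
    have htp : 0 < t := by linarith
    have hlog : 0 ≤ Real.log t := Real.log_nonneg ht
    have hv : 0 < 1 + Real.log t / 2 := by linarith
    have h1 : HasDerivAt (fun t : ℝ => 1 + Real.log t / 2) (t⁻¹ / 2) t := by
      simpa using ((Real.hasDerivAt_log htp.ne').div_const 2).const_add 1
    have h2 := (h1.rpow_const (p := (-(1 / 2) : ℝ)) (Or.inl hv.ne')).const_mul (-4)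
    refine h2.congr_deriv ?_
    have : (-(1 / 2) - 1 : ℝ) = -(3 / 2) := by norm_num
    rw [this]
    ring
  apply integrableOn_Ioi_deriv_of_nonneg (l := 0)
    (g := (fun t : ℝ => (-4) * (1 + Real.log t / 2) ^ (-(1 / 2) : ℝ)))
  · exact (hd 1 le_rfl).continuousAt.continuousWithinAt
  · intro t ht
    exact hd t (le_of_lt ht)
  · intro t ht
    have ht' : (1:ℝ) < t := ht
    have htp : 0 < t := by linarith
    have hlog : 0 ≤ Real.log t := Real.log_nonneg ht'.le
    have hv : 0 < 1 + Real.log t / 2 := by linarith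
    have := Real.rpow_pos_of_pos hv (-(3 / 2) : ℝ)
    positivity
  · have h1 : Tendsto (fun t : ℝ => 1 + Real.log t / 2) atTop atTop := by
      apply tendsto_atTop_add_const_left
      exact Real.tendsto_log_atTop.atTop_div_const (by norm_num)
    have h2 := (tendsto_rpow_neg_atTop (by norm_num : (0:ℝ) < 1 / 2)).comp h1
    have h3 := h2.const_mul (-4 : ℝ)
    simpa using h3

theorem Bp_cond : (∫⁻ t in Ioi (1 : ℝ),
    ENNReal.ofReal ((⨆ s : Ioi (0 : ℝ), ((s : ℝ) * t - A s)) * t ^ (-3 : ℝ))) < ⊤ := by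
  have hi := (int_aux1.add int_aux2)
  have hfin := hi.2
  refine lt_of_le_of_lt ?_ hfin
  apply setLIntegral_mono' measurableSet_Ioi
  intro t ht
  have ht' : (1:ℝ) < t := ht
  have htp : 0 < t := by linarith
  have hlog : 0 ≤ Real.log t := Real.log_nonneg ht'.le
  have hv : 0 < 1 + Real.log t / 2 := by linarith
  have hvv : 0 < (1 + Real.log t / 2) ^ (-(3 / 2) : ℝ) := Real.rpow_pos_of_pos hv _
  have h3 : 0 < t ^ (-3 : ℝ) := Real.rpow_pos_of_pos htp _
  have key : (⨆ s : Ioi (0 : ℝ), ((s : ℝ) * t - A s)) * t ^ (-3 : ℝ) ≤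
      t ^ (-(3 / 2) : ℝ) + t⁻¹ * (1 + Real.log t / 2) ^ (-(3 / 2) : ℝ) := by
    refine le_trans (mul_le_mul_of_nonneg_right (conj_le ht') h3.le) ?_
    rw [add_mul]
    apply le_of_eq
    congr 1
    · rw [← Real.rpow_add htp]
      norm_num
    · have : t ^ (-3 : ℝ) = t⁻¹ * (t ^ 2)⁻¹ := by
        rw [Real.rpow_neg htp.le]
        have : t ^ (3 : ℝ) = t ^ 3 := by
          rw [← Real.rpow_natCast]; norm_num
        rw [this]
        field_simp
      rw [this]
      field_simp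
  have pos : 0 ≤ t ^ (-(3 / 2) : ℝ) + t⁻¹ * (1 + Real.log t / 2) ^ (-(3 / 2) : ℝ) := by
    have := Real.rpow_nonneg htp.le (-(3 / 2) : ℝ)
    positivity
  refine le_trans (ENNReal.ofReal_le_ofReal key) ?_
  simp only [Pi.add_apply]
  rw [← ofReal_norm, Real.norm_of_nonneg pos]

end Pool.Agent.SepBump
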